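import Pool.Agent.Q50.MM.Main

/-!
# Modularity from one Frobenius class of places for each of infinitely many primes

An elliptic curve `E` over an imaginary quadratic field `F`, without complex multiplication by an order
in `F`, is modular if and only if for some level `N` and infinitely many prime numbers `p` there are a
nonzero class `c` in `H¹(Y(N), k)`, `k` an algebraic closure of the field with `p` elements, a finite
Galois extension `L` of `F` without quadratic extensions of `F` over which `E[p]` is irreducible, and
an element `τ` of `Gal(L/F)`, such that `T_w c = a_w(E) c` for more than `7/8` of the places `w` of `F`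
whose Frobenius class in `Gal(L/F)` is the class of `τ`.

The class `c`, the field `L` and the element `τ` may depend on `p`; `c` need not be an eigenvector of
the other Hecke operators and need not come from characteristic zero; the density of the set of places
can be arbitrarily small for every `p`, and the sets for different `p` may be disjoint.

Proved in Lean: the theorem on representations of finite groups in any characteristic whose traces
agree on most elements of a coset, the passage to eigenvectors, and the passage to characteristic zero.
-/

set_option autoImplicit false
set_option linter.ambiguousOpen false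

universe u

namespace Pool.Agent.Results.MP_87c685_nt.InfinitelyManyPrimes

open Pool.Agent.Q50.ES Pool.Agent.Q50.ES.MM

/-- **Modularity from infinitely many primes.** (0) Unconditional: two
representations of dimension `n > 0` of a finite group over any field, the first one absolutely
irreducible on a subgroup `N`, whose traces differ on less than `|N| / (2 n ^ 2)` elements of a coset of
`N` are isomorphic on `N`. (1) Let `E` be an elliptic curve over an imaginary
quadratic field `F` without complex multiplication by an order in `F`. Then `E` is modular if and only
if for some level `N ≠ 0` and infinitely many primes `p` some nonzero class in the cohomology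
`H¹(Y(N), k p)` satisfies the Hecke identities of `E` for more than `7/8` of the places in one
Frobenius class of an admissible extension `L` of `F`. (2) All these curves are modular if and only if
all of them have this property. -/
theorem result :
    (∀ (k : Type u) [Field k] (G : Type) [Group G] [Finite G] (n : ℕ)
      (ρ σ : G →* Matrix (Fin n) (Fin n) k) (N : Subgroup G) (t : G), 0 < n →
      (∀ a, a ∈ Submodule.span k (ρ '' N)) →
      2 * n ^ 2 * {x | x ∈ N ∧ (ρ (t * x)).trace ≠ (σ (t * x)).trace}.ncard < (N : Set G).ncard →
      ∃ P : GL (Fin n) k, ∀ g ∈ N, σ g = (P : Matrix (Fin n) (Fin n) k) * ρ g *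
        ((P⁻¹ : GL (Fin n) k) : Matrix (Fin n) (Fin n) k)) ∧
    ∀ T : MM.Data, T.Facts →
      (∀ F, Quadratic F → ∀ E : T.Curve F, ¬ T.CMBase E → (T.Modular E ↔ T.ModularModMany E)) ∧
      ((∀ F, Quadratic F → ∀ E : T.Curve F, ¬ T.CMBase E → T.Modular E) ↔
        ∀ F, Quadratic F → ∀ E : T.Curve F, ¬ T.CMBase E → T.ModularModMany E) :=
  ⟨fun _ _ _ _ _ _ ρ σ N t hn hspan hcard => MC.iso_of_traces hn ρ σ N t hspan hcard,
    fun _ hT => ⟨fun _ hF E hE => MM.Data.modular_iff hT hF E hE, MM.Data.all_iff hT⟩⟩

end Pool.Agent.Results.MP_87c685_nt.InfinitelyManyPrimes
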