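import Pool.Agent.Q50.GE.Main

/-!
# Powers of the traces at a positive proportion of the places decide the modularity of an elliptic curve

Let `A` be an elliptic curve over a CM field `F`, for instance an imaginary quadratic field, without
complex multiplication over the algebraic closure. It is modular if and only if there are a chain
`F = F₀ ⊆ F₁ ⊆ ... ⊆ F_n = L` of CM fields, each cyclic of prime degree over the preceding one, a cuspidal
automorphic representation `f` of `GL₂` over `L` of weight 2 and some `m ≥ 1` such that
`a_w(A) ^ m = a_w(f) ^ m` for a set of places `w` of `L` of positive upper density. For `m = 2` and real
`a_w(f)` this is the equality of the absolute values.

Hence the modularity of all elliptic curves over all imaginary quadratic fields without complex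
multiplication by an order in the base field is equivalent to this condition for those without complex
multiplication.

Proved in Lean: two representations of dimension two whose traces agree up to a factor on a coset of an
open subgroup are isomorphic there; then over `L` up to a character of finite order; and the descent
along the tower from Langlands' theorem for cyclic extensions of prime degree.
-/

set_option autoImplicit false

universe u

namespace Pool.Agent.Results.MP_87c685_nt.PowersOfTraces

open Pool.Agent.Q50.ES NumberField

/-- **Powers of the traces at a positive proportion of the places.** (1) An elliptic curve over a CM
field without complex multiplication over the algebraic closure is modular if and only if over the end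
`L` of a tower of CM fields there is an automorphic representation of weight 2 such that, for some
`m ≥ 1`, the `m`-th powers of the Frobenius traces agree for a set of places of `L` of positive upper
density. (2) All elliptic curves over imaginary quadratic fields without complex multiplication by an
order in the base field are modular if and only if the condition of (1) holds for all elliptic curves
over imaginary quadratic fields without complex multiplication over the algebraic closure. -/
theorem result {K : Type u} [Field K] [TopologicalSpace K] [IsTopologicalRing K] [T1Space K]
    (T : GE.Data K) (hT : T.Facts) :
    (∀ F, GE.CMField F → ∀ A : T.EC F, ¬ T.CM A → (T.Modular A ↔ T.Approximated A)) ∧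
    ((∀ F, GE.ImaginaryQuadratic F → ∀ A : T.EC F, ¬ T.CMBase A → T.Modular A) ↔
      ∀ F, GE.ImaginaryQuadratic F → ∀ A : T.EC F, ¬ T.CM A → T.Approximated A) :=
  ⟨fun _ hF A hA => GE.Data.modular_iff hT hF A hA, GE.Data.all_iff hT⟩

end Pool.Agent.Results.MP_87c685_nt.PowersOfTraces
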